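import Pool.Agent.H68.NPH.Base
import Pool.Agent.H68.Sq.NpMem

/-!
For every `k ≥ 1`, recognising intersection graphs of lattice squares of side `k` is NP-complete.
-/

namespace Pool.Agent.Results.MP_ae7730_lc.NPComplete

/-- The closed axis-parallel square of side `k` in the plane whose lower left corner is the lattice
point `p`. -/
def square (k : ℕ) (p : ℤ × ℤ) : Set (ℝ × ℝ) :=
  Set.Icc (p.1 : ℝ) (p.1 + k) ×ˢ Set.Icc (p.2 : ℝ) (p.2 + k)

/-- The graph `G` is in the class `S_k`: to every vertex a closed axis-parallel square of side `k`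
with corners in the integer lattice can be assigned such that two different vertices are adjacent
if and only if their squares intersect.  Different vertices may receive the same square. -/
def LatticeSquareGraph {V : Type*} (k : ℕ) (G : SimpleGraph V) : Prop :=
  ∃ p : V → ℤ × ℤ, ∀ u v, u ≠ v → (G.Adj u v ↔ (square k (p u) ∩ square k (p v)).Nonempty)

/-- The finite simple graph given by its number of vertices and a list of edges: the vertices are
`0, …, n - 1`, and distinct `u` and `v` are adjacent if `(u, v)` or `(v, u)` is in the list. -/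
def graphOf (g : ℕ × List (ℕ × ℕ)) : SimpleGraph (Fin g.1) :=
  SimpleGraph.fromRel (fun u v => ((u : ℕ), (v : ℕ)) ∈ g.2)

/-- The code of a graph: the numbers `n, u₁, v₁, u₂, v₂, …` where `n` is the number of vertices and
`(u₁, v₁), (u₂, v₂), …` are the listed edges; each number `x` is written as `x` ones and a zero. -/
def graphCode (g : ℕ × List (ℕ × ℕ)) : List Bool :=
  (g.1 :: g.2.flatMap (fun e => [e.1, e.2])).flatMap (fun x => List.replicate x true ++ [false])

open Classical in
/-- The recognition problem: is the input string the code of a graph in the class `S_k`? -/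
noncomputable def Recognition (k : ℕ) : N68a2faeb.DecisionProblem :=
  fun w => decide (∃ g, graphCode g = w ∧ LatticeSquareGraph k (graphOf g))

theorem square_inter (k : ℕ) (p q : ℤ × ℤ) :
    (square k p ∩ square k q).Nonempty ↔ H68.Sq.Nr k p q := by
  unfold square H68.Sq.Nr
  constructor
  · rintro ⟨z, ⟨⟨h1, h2⟩, ⟨h3, h4⟩⟩, ⟨⟨h5, h6⟩, ⟨h7, h8⟩⟩⟩
    refine ⟨?_, ?_, ?_, ?_⟩
    · have : (p.1 : ℝ) ≤ q.1 + k := le_trans h1 h6
      exact_mod_cast this
    · have : (q.1 : ℝ) ≤ p.1 + k := le_trans h5 h2
      exact_mod_cast this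
    · have : (p.2 : ℝ) ≤ q.2 + k := le_trans h3 h8
      exact_mod_cast this
    · have : (q.2 : ℝ) ≤ p.2 + k := le_trans h7 h4
      exact_mod_cast this
  · rintro ⟨h1, h2, h3, h4⟩
    have h1' : (p.1 : ℝ) ≤ q.1 + k := by exact_mod_cast h1
    have h2' : (q.1 : ℝ) ≤ p.1 + k := by exact_mod_cast h2
    have h3' : (p.2 : ℝ) ≤ q.2 + k := by exact_mod_cast h3
    have h4' : (q.2 : ℝ) ≤ p.2 + k := by exact_mod_cast h4
    have hk : (0 : ℝ) ≤ k := Nat.cast_nonneg k
    refine ⟨(max p.1 q.1, max p.2 q.2), ⟨⟨?_, ?_⟩, ⟨?_, ?_⟩⟩, ⟨⟨?_, ?_⟩, ⟨?_, ?_⟩⟩⟩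
    · exact le_max_left _ _
    · exact max_le (by linarith) h2'
    · exact le_max_left _ _
    · exact max_le (by linarith) h4'
    · exact le_max_right _ _
    · exact max_le h1' (by linarith)
    · exact le_max_right _ _
    · exact max_le h3' (by linarith)

theorem square_iff {V : Type*} (k : ℕ) (G : SimpleGraph V) :
    LatticeSquareGraph k G ↔ H68.Sq.SqG k G := by
  unfold LatticeSquareGraph H68.Sq.SqG
  simp only [square_inter]

theorem rec_iff (k : ℕ) (w : List Bool) : Recognition k w = true ↔
    ∃ g, H68.OQP.encG g = w ∧ H68.Sq.SqG k (H68.OQP.graphOf g) := by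
  have e : (Recognition k w = true) ↔
      ∃ g, graphCode g = w ∧ LatticeSquareGraph k (graphOf g) := by
    unfold Recognition
    exact @decide_eq_true_iff _ (Classical.propDecidable _)
  rw [e]
  simp only [square_iff]
  rfl

theorem nphard (k : ℕ) (hk : 1 ≤ k) :
    ∀ L ∈ N68a2faeb.NP, N793a5b8e.ManyOneReducible L (Recognition k) := by
  intro L hL
  obtain ⟨f, hf, h⟩ := H68.Sq.np_sq hk hL
  refine H68.NPH.manyOne (Q := fun g => H68.Sq.SqG k (H68.OQP.graphOf g)) hf ?_ h
  intro g
  rw [rec_iff]
  constructor
  · rintro ⟨g', h1, h2⟩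
    obtain rfl : g' = g := H1.PNP.encG_inj h1
    exact h2
  · intro h1
    exact ⟨g, rfl, h1⟩

/-- For each integer `k ≥ 1`, deciding whether a given finite graph is the intersection graph of
closed axis-parallel squares of side `k` with corners in the integer lattice is NP-complete: the
problem is in the class NP of the Prelude and every problem in this class is reducible to it by a
many-one reduction computable in polynomial time.  In particular, if the problem is in P, then
P = NP. -/
theorem result (k : ℕ) (hk : 1 ≤ k) :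
    N793a5b8e.IsCompleteFor N68a2faeb.NP (Recognition k) ∧
    (Recognition k ∈ N68a2faeb.P → N68a2faeb.P = N68a2faeb.NP) :=
  ⟨⟨H68.Sq.mem_np_sq (rec_iff k), nphard k hk⟩, H1.PNP.P_eq_NP_of_hard (nphard k hk)⟩

end Pool.Agent.Results.MP_ae7730_lc.NPComplete
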